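import Pool.Agent.Helper61.SS.Goals

/-!
# Project SS (MP_552bae_an): packet APT, failure of the approximation property in the form of a trace
-/

set_option autoImplicit false

namespace Pool.Agent.Helper19.SS

open TensorProduct Filter Topology Pool.Agent.Helper61.SS
open scoped ENNReal

universe u

section seq

variable {A : Type u} [NormedAddCommGroup A] [NormedSpace ℂ A]

/-- Bounded sequences. -/
abbrev BS (A : Type u) [NormedAddCommGroup A] : Type u := lp (fun _ : ℕ => A) ∞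

theorem sum_single_apply (s : Finset ℕ) (y : ℕ → A) (j : ℕ) :
    (∑ k ∈ s, lp.single (E := fun _ : ℕ => A) ∞ k (y k) : BS A) j = if j ∈ s then y j else 0 := by
  rw [lp.coeFn_sum, Finset.sum_apply]
  by_cases h : j ∈ s
  · rw [if_pos h, Finset.sum_eq_single j]
    · exact lp.single_apply_self _ _ _
    · intro k _ hk
      exact lp.single_apply_ne _ _ _ (fun h => hk h.symm)
    · intro h'
      exact absurd h h'
  · rw [if_neg h]
    refine Finset.sum_eq_zero fun k hk => ?_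
    refine lp.single_apply_ne _ _ _ ?_
    rintro rfl
    exact h hk

theorem norm_sum_single_le (s : Finset ℕ) (y : ℕ → A) {C : ℝ} (hC : 0 ≤ C)
    (hy : ∀ k, ‖y k‖ ≤ C) :
    ‖(∑ k ∈ s, lp.single (E := fun _ : ℕ => A) ∞ k (y k) : BS A)‖ ≤ C := by
  refine lp.norm_le_of_forall_le hC fun j => ?_
  rw [sum_single_apply]
  split_ifs
  · exact hy j
  · rw [norm_zero]
    exact hC

/-- The components of a functional. -/
noncomputable def cmp (Ψ : BS A →L[ℂ] ℂ) (k : ℕ) : A →L[ℂ] ℂ :=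
  LinearMap.mkContinuous
    { toFun := fun y => Ψ (lp.single (E := fun _ : ℕ => A) ∞ k y)
      map_add' := fun y z => by rw [lp.single_add, map_add]
      map_smul' := fun c y => by rw [lp.single_smul, map_smul]; rfl } ‖Ψ‖ fun y => by
    refine (Ψ.le_opNorm _).trans ?_
    refine mul_le_mul_of_nonneg_left ?_ (norm_nonneg _)
    exact (lp.norm_single (E := fun _ : ℕ => A) (p := ∞) ENNReal.zero_lt_top k y).le

theorem cmp_apply (Ψ : BS A →L[ℂ] ℂ) (k : ℕ) (y : A) :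
    cmp Ψ k y = Ψ (lp.single (E := fun _ : ℕ => A) ∞ k y) := rfl

theorem sum_cmp_le (Ψ : BS A →L[ℂ] ℂ) (s : Finset ℕ) : ∑ k ∈ s, ‖cmp Ψ k‖ ≤ ‖Ψ‖ := by
  refine le_of_forall_pos_le_add fun ε hε => ?_
  obtain ⟨δ, hδ, hδ'⟩ : ∃ δ : ℝ, 0 < δ ∧ s.card * δ ≤ ε := by
    refine ⟨ε / (s.card + 1), by positivity, ?_⟩
    rw [mul_div_assoc', div_le_iff₀ (by positivity)]
    nlinarith
  have hex : ∀ k : ℕ, ∃ y : A, ‖y‖ ≤ 1 ∧ cmp Ψ k y = ((‖cmp Ψ k y‖ : ℝ) : ℂ) ∧
      ‖cmp Ψ k‖ - δ ≤ ‖cmp Ψ k y‖ := by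
    intro k
    obtain ⟨x, hx, hx'⟩ := (cmp Ψ k).exists_lt_apply_of_lt_opNorm
      (show ‖cmp Ψ k‖ - δ < ‖cmp Ψ k‖ by linarith)
    by_cases h0 : cmp Ψ k x = 0
    · refine ⟨x, hx.le, ?_, hx'.le⟩
      rw [h0, norm_zero, Complex.ofReal_zero]
    · have hn : (‖cmp Ψ k x‖ : ℂ) ≠ 0 := by
        rw [Complex.ofReal_ne_zero]
        exact norm_ne_zero_iff.2 h0
      have hc : ‖((‖cmp Ψ k x‖ : ℝ) : ℂ) / cmp Ψ k x‖ = 1 := by
        rw [norm_div, Complex.norm_real, norm_norm, div_self (norm_ne_zero_iff.2 h0)]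
      have h1 : cmp Ψ k ((((‖cmp Ψ k x‖ : ℝ) : ℂ) / cmp Ψ k x) • x) = ((‖cmp Ψ k x‖ : ℝ) : ℂ) := by
        rw [map_smul, smul_eq_mul, div_mul_cancel₀ _ h0]
      refine ⟨(((‖cmp Ψ k x‖ : ℝ) : ℂ) / cmp Ψ k x) • x, ?_, ?_, ?_⟩
      · rw [norm_smul, hc, one_mul]
        exact hx.le
      · rw [h1, Complex.norm_real, norm_norm]
      · rw [h1, Complex.norm_real, norm_norm]
        exact hx'.le
  choose y hy1 hy2 hy3 using hex
  have h1 : ((∑ k ∈ s, ‖cmp Ψ k (y k)‖ : ℝ) : ℂ) =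
      Ψ (∑ k ∈ s, lp.single (E := fun _ : ℕ => A) ∞ k (y k)) := by
    rw [map_sum]
    push_cast
    refine Finset.sum_congr rfl fun k _ => ?_
    rw [← cmp_apply, hy2 k]
    rw [Complex.norm_real, norm_norm]
  have h2 : ∑ k ∈ s, ‖cmp Ψ k (y k)‖ ≤ ‖Ψ‖ := by
    have h3 : ‖((∑ k ∈ s, ‖cmp Ψ k (y k)‖ : ℝ) : ℂ)‖ ≤ ‖Ψ‖ := by
      rw [h1]
      refine (Ψ.le_opNorm _).trans ?_
      have := norm_sum_single_le s y zero_le_one hy1
      calc ‖Ψ‖ * _ ≤ ‖Ψ‖ * 1 := mul_le_mul_of_nonneg_left this (norm_nonneg _)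
        _ = ‖Ψ‖ := mul_one _
    rw [Complex.norm_real] at h3
    exact (le_abs_self _).trans h3
  calc ∑ k ∈ s, ‖cmp Ψ k‖ ≤ ∑ k ∈ s, (‖cmp Ψ k (y k)‖ + δ) :=
        Finset.sum_le_sum fun k _ => by linarith [hy3 k]
    _ = ∑ k ∈ s, ‖cmp Ψ k (y k)‖ + s.card * δ := by
        rw [Finset.sum_add_distrib, Finset.sum_const, nsmul_eq_mul]
    _ ≤ ‖Ψ‖ + ε := by linarith

theorem summable_cmp (Ψ : BS A →L[ℂ] ℂ) : Summable fun k => ‖cmp Ψ k‖ :=
  summable_of_sum_le (fun _ => norm_nonneg _) (sum_cmp_le Ψ)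

omit [NormedSpace ℂ A] in
/-- Null sequences are bounded. -/
theorem memℓp_null {y : ℕ → A} (hy : Tendsto y atTop (𝓝 0)) : Memℓp (E := fun _ : ℕ => A) y ∞ := by
  refine memℓp_infty ?_
  exact (hy.norm).bddAbove_range

omit [NormedSpace ℂ A] in
theorem exists_bd {y : ℕ → A} (hy : Tendsto y atTop (𝓝 0)) : ∃ C : ℝ, 0 ≤ C ∧ ∀ k, ‖y k‖ ≤ C := by
  obtain ⟨C, hC⟩ := (hy.norm).bddAbove_range
  refine ⟨max C 0, le_max_right _ _, fun k => (hC ⟨k, rfl⟩).trans (le_max_left _ _)⟩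

theorem tendsto_partial {y : ℕ → A} (hy : Tendsto y atTop (𝓝 0)) :
    Tendsto (fun n => (∑ k ∈ Finset.range n, lp.single (E := fun _ : ℕ => A) ∞ k (y k) : BS A))
      atTop (𝓝 (⟨y, memℓp_null hy⟩ : BS A)) := by
  rw [Metric.tendsto_atTop]
  intro ε hε
  obtain ⟨N, hN⟩ := (Metric.tendsto_atTop.1 hy) (ε / 2) (by linarith)
  refine ⟨N, fun n hn => ?_⟩
  rw [dist_eq_norm]
  refine lt_of_le_of_lt (lp.norm_le_of_forall_le (C := ε / 2) (by linarith) fun j => ?_)
    (by linarith)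
  rw [lp.coeFn_sub, Pi.sub_apply, sum_single_apply]
  show ‖(if j ∈ Finset.range n then y j else 0) - y j‖ ≤ ε / 2
  split_ifs with h
  · rw [sub_self, norm_zero]
    linarith
  · rw [zero_sub, norm_neg]
    have h1 : N ≤ j := by
      rw [Finset.mem_range, not_lt] at h
      omega
    have := hN j h1
    rw [dist_zero_right] at this
    exact this.le

theorem hasSum_cmp (Ψ : BS A →L[ℂ] ℂ) {y : ℕ → A} (hy : Tendsto y atTop (𝓝 0)) :
    HasSum (fun k => cmp Ψ k (y k)) (Ψ (⟨y, memℓp_null hy⟩ : BS A)) := by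
  obtain ⟨C, hC, hyC⟩ := exists_bd hy
  have hs : Summable fun k => cmp Ψ k (y k) := by
    refine Summable.of_norm_bounded (g := fun k => ‖cmp Ψ k‖ * C)
      ((summable_cmp Ψ).mul_right C) fun k => ?_
    exact ((cmp Ψ k).le_opNorm _).trans (mul_le_mul_of_nonneg_left (hyC k) (norm_nonneg _))
  have h1 := hs.hasSum.tendsto_sum_nat
  have h2 : Tendsto (fun n => Ψ (∑ k ∈ Finset.range n, lp.single (E := fun _ : ℕ => A) ∞ k (y k)))
      atTop (𝓝 (Ψ (⟨y, memℓp_null hy⟩ : BS A))) :=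
    (Ψ.continuous.tendsto _).comp (tendsto_partial hy)
  have h3 : (fun n => Ψ (∑ k ∈ Finset.range n, lp.single (E := fun _ : ℕ => A) ∞ k (y k))) =
      fun n => ∑ k ∈ Finset.range n, cmp Ψ k (y k) := by
    funext n
    rw [map_sum]
    rfl
  rw [h3] at h2
  rw [← tendsto_nhds_unique h1 h2]
  exact hs.hasSum

end seq

/-- **APT.** -/
theorem gAPT : Pool.Agent.Helper61.SS.G_APT.{u} := by
  intro hH A _ _ _ hAP
  unfold AP at hAP
  push Not at hAP
  obtain ⟨K, hK, ε, hε, hbad⟩ := hAP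
  obtain ⟨x, hx, hhull⟩ := hH A K hK
  obtain ⟨C, hC, hxC⟩ := exists_bd hx
  -- the images of `x`
  have hSx : ∀ S : A →L[ℂ] A, Tendsto (fun k => S (x k)) atTop (𝓝 0) := by
    intro S
    have := (S.continuous.tendsto 0).comp hx
    rwa [map_zero] at this
  have hfar : ∀ S : A →L[ℂ] A, FiniteDimensional ℂ (LinearMap.range (S : A →ₗ[ℂ] A)) →
      ∃ k, ε / 2 < ‖S (x k) - x k‖ := by
    intro S hS
    by_contra hcon
    push Not at hcon
    obtain ⟨y, hyK, hy⟩ := hbad S hS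
    obtain ⟨l, hl1, hl2, hl3⟩ := hhull y hyK
    have h1 : HasSum (fun k => l k • (S (x k) - x k)) (S y - y) := by
      have h2 : HasSum (fun k => S (l k • x k)) (S y) := hl3.mapL S
      have h3 := h2.sub hl3
      refine h3.congr_fun ?_ 
      intro k
      rw [map_smul, smul_sub]
    have h4 : ‖S y - y‖ ≤ ε / 2 := by
      rw [← h1.tsum_eq]
      have h5 : Summable fun k => ‖l k • (S (x k) - x k)‖ := by
        refine Summable.of_nonneg_of_le (fun _ => norm_nonneg _) (fun k => ?_)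
          (hl1.mul_right (ε / 2))
        rw [norm_smul]
        exact mul_le_mul_of_nonneg_left (hcon k) (norm_nonneg _)
      refine (norm_tsum_le_tsum_norm h5).trans ?_
      calc ∑' k, ‖l k • (S (x k) - x k)‖ ≤ ∑' k, ‖l k‖ * (ε / 2) := by
            refine h5.tsum_le_tsum (fun k => ?_) (hl1.mul_right (ε / 2))
            rw [norm_smul]
            exact mul_le_mul_of_nonneg_left (hcon k) (norm_nonneg _)
        _ = (∑' k, ‖l k‖) * (ε / 2) := tsum_mul_right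
        _ ≤ 1 * (ε / 2) := mul_le_mul_of_nonneg_right hl2 (by linarith)
        _ = ε / 2 := one_mul _
    linarith
  -- the subspace
  let V : Submodule ℂ (BS A) :=
    { carrier := {z | ∃ S : A →L[ℂ] A, FiniteDimensional ℂ (LinearMap.range (S : A →ₗ[ℂ] A)) ∧
        z = ⟨fun k => S (x k), memℓp_null (hSx S)⟩}
      add_mem' := by
        rintro _ _ ⟨S, hS, rfl⟩ ⟨T, hT, rfl⟩
        refine ⟨S + T, ?_, rfl⟩
        have : LinearMap.range ((S + T : A →L[ℂ] A) : A →ₗ[ℂ] A) ≤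
            LinearMap.range (S : A →ₗ[ℂ] A) ⊔ LinearMap.range (T : A →ₗ[ℂ] A) := by
          rintro _ ⟨z, rfl⟩
          exact Submodule.add_mem_sup ⟨z, rfl⟩ ⟨z, rfl⟩
        exact Submodule.finiteDimensional_of_le this
      zero_mem' := by
        refine ⟨0, ?_, rfl⟩
        have : LinearMap.range ((0 : A →L[ℂ] A) : A →ₗ[ℂ] A) ≤ (⊥ : Submodule ℂ A) := by
          rintro _ ⟨z, rfl⟩
          exact Submodule.zero_mem _
        exact Submodule.finiteDimensional_of_le this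
      smul_mem' := by
        rintro c _ ⟨S, hS, rfl⟩
        refine ⟨c • S, ?_, rfl⟩
        have : LinearMap.range ((c • S : A →L[ℂ] A) : A →ₗ[ℂ] A) ≤
            LinearMap.range (S : A →ₗ[ℂ] A) := by
          rintro _ ⟨z, rfl⟩
          exact ⟨c • z, by rw [map_smul]; rfl⟩
        exact Submodule.finiteDimensional_of_le this }
  let X : BS A := ⟨x, memℓp_null hx⟩
  have hdist : ε / 2 ≤ ‖(Submodule.Quotient.mk X : BS A ⧸ V)‖ := by
    by_contra hcon
    rw [not_le] at hcon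
    obtain ⟨m, hm1, hm2⟩ := Submodule.Quotient.norm_mk_lt (S := V)
      (Submodule.Quotient.mk X : BS A ⧸ V)
      (show 0 < ε / 2 - ‖(Submodule.Quotient.mk X : BS A ⧸ V)‖ by linarith)
    have hm3 : ‖m‖ < ε / 2 := by linarith
    have hm4 : m - X ∈ V := (Submodule.Quotient.eq V).1 hm1
    obtain ⟨S, hS, hmS⟩ := hm4
    have hS' : FiniteDimensional ℂ (LinearMap.range ((-S : A →L[ℂ] A) : A →ₗ[ℂ] A)) := by
      have : LinearMap.range ((-S : A →L[ℂ] A) : A →ₗ[ℂ] A) ≤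
          LinearMap.range (S : A →ₗ[ℂ] A) := by
        rintro _ ⟨z, rfl⟩
        exact ⟨-z, by rw [map_neg]; rfl⟩
      exact Submodule.finiteDimensional_of_le this
    obtain ⟨k, hk⟩ := hfar (-S) hS'
    have h1 : m k = x k + S (x k) := by
      have h2 : m = X + ⟨fun k => S (x k), memℓp_null (hSx S)⟩ := by
        rw [← hmS]; abel
      rw [h2]
      rfl
    have h3 := lp.norm_apply_le_norm (by simp) m k
    have h4 : ‖(-S : A →L[ℂ] A) (x k) - x k‖ = ‖m k‖ := by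
      rw [h1, ← norm_neg]
      congr 1
      show -(-S (x k) - x k) = x k + S (x k)
      abel
    linarith
  obtain ⟨g, -, hg⟩ := exists_dual_vector ℂ (Submodule.Quotient.mk X : BS A ⧸ V) (by linarith)
  let Ψ : BS A →L[ℂ] ℂ := g.comp V.mkQL
  have hΨX : Ψ X ≠ 0 := by
    show g (Submodule.Quotient.mk X) ≠ 0
    rw [hg]
    have h0 : ‖(Submodule.Quotient.mk X : BS A ⧸ V)‖ ≠ 0 := by linarith
    rw [Ne, RCLike.ofReal_eq_zero]
    exact h0
  have hΨV : ∀ z ∈ V, Ψ z = 0 := by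
    intro z hz
    show g (Submodule.Quotient.mk z) = 0
    rw [(Submodule.Quotient.mk_eq_zero V).2 hz, map_zero]
  refine ⟨x, cmp Ψ, hx, summable_cmp Ψ, fun y => ?_, ?_⟩
  · refine SeparatingDual.eq_zero_of_forall_dual_eq_zero (R := ℂ) fun h => ?_
    have hsum : Summable fun k => cmp Ψ k y • x k := by
      refine Summable.of_norm_bounded (g := fun k => ‖cmp Ψ k‖ * (‖y‖ * C))
        ((summable_cmp Ψ).mul_right _) fun k => ?_
      rw [norm_smul]
      calc ‖cmp Ψ k y‖ * ‖x k‖ ≤ (‖cmp Ψ k‖ * ‖y‖) * C :=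
            mul_le_mul ((cmp Ψ k).le_opNorm y) (hxC k) (norm_nonneg _) (by positivity)
        _ = ‖cmp Ψ k‖ * (‖y‖ * C) := mul_assoc _ _ _
    rw [h.map_tsum hsum]
    let S : A →L[ℂ] A := h.smulRight y
    have hS : FiniteDimensional ℂ (LinearMap.range (S : A →ₗ[ℂ] A)) := by
      have : LinearMap.range (S : A →ₗ[ℂ] A) ≤ Submodule.span ℂ {y} := by
        rintro _ ⟨z, rfl⟩
        exact Submodule.smul_mem _ _ (Submodule.mem_span_singleton_self y)
      exact Submodule.finiteDimensional_of_le this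
    have h1 := hasSum_cmp Ψ (hSx S)
    rw [hΨV _ ⟨S, hS, rfl⟩] at h1
    rw [← h1.tsum_eq]
    refine tsum_congr fun k => ?_
    show h (cmp Ψ k y • x k) = cmp Ψ k (h (x k) • y)
    rw [map_smul, map_smul, smul_eq_mul, smul_eq_mul, mul_comm]
  · rw [(hasSum_cmp Ψ hx).tsum_eq]
    exact hΨX

end Pool.Agent.Helper19.SS
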