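import Pool.Agent.Helper57.SS.Goals

/-!
# Packet SS-WR
-/

set_option autoImplicit false

namespace Pool.Agent.Helper19.SS

open Pool.Agent.Helper57.SS Pool.Agent.Helper49.RS

theorem gWR : Pool.Agent.Helper57.SS.G_WR := by
  intro p _ a hinf s t M
  induction M with
  | zero => simp
  | succ M ih =>
    rw [Finset.sum_range_succ, ih, Nat.count_succ]
    by_cases hp : p M
    · rw [if_pos hp, Finset.sum_range_succ, Nat.nth_count hp]
      simp [ind, hp]
    · rw [if_neg hp]
      simp [ind, hp]

end Pool.Agent.Helper19.SS
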